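import Pool.Agent.X266.IDL.Turan

/-!
# Graphs in which every edge is in an `l`-clique
-/

set_option autoImplicit false

namespace Pool.Agent.X266.IDL

open Finset

variable {V : Type} [Fintype V] (G : SimpleGraph V)

open scoped Classical in
/-- the degree -/
noncomputable def dg (v : V) : ℕ := (Finset.univ.filter fun w => G.Adj v w).card

open scoped Classical in
/-- the number of vertices adjacent to all elements of `K` -/
noncomputable def cod (K : Finset V) : ℕ := (Finset.univ.filter fun v => ∀ w ∈ K, G.Adj v w).card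

open scoped Classical in
/-- the number of `l`-cliques with the elements `x`, `y` -/
noncomputable def mult (l : ℕ) (x y : V) : ℕ :=
  ((G.cliqueFinset l).filter fun K => x ∈ K ∧ y ∈ K).card

open scoped Classical in
theorem sum_dg_le {l : ℕ} (hl : 2 ≤ l) (K : Finset V) (hK : K.card = l) :
    ∑ w ∈ K, dg G w ≤ (l - 2) * Fintype.card V + ∑ u ∈ K, cod G (K.erase u) := by
  have h1 : ∑ w ∈ K, dg G w = ∑ v : V, (K.filter fun w => G.Adj v w).card := by
    simp only [dg, Finset.card_filter]
    rw [Finset.sum_comm]
    refine Finset.sum_congr rfl fun v _ => Finset.sum_congr rfl fun w _ => ?_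
    rw [G.adj_comm]
  have h2 : ∑ u ∈ K, cod G (K.erase u) =
      ∑ v : V, (K.filter fun u => ∀ w ∈ K.erase u, G.Adj v w).card := by
    simp only [cod, Finset.card_filter]
    rw [Finset.sum_comm]
  have h3 : (l - 2) * Fintype.card V = ∑ _v : V, (l - 2) := by
    rw [Finset.sum_const, Finset.card_univ, smul_eq_mul, mul_comm]
  rw [h1, h2, h3, ← Finset.sum_add_distrib]
  refine Finset.sum_le_sum fun v _ => ?_
  have h4 := Finset.card_filter_add_card_filter_not (s := K) (fun w => G.Adj v w)
  rw [hK] at h4
  rcases Nat.lt_or_ge 1 (K.filter fun w => ¬ G.Adj v w).card with h5 | h5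
  · omega
  · rcases Nat.lt_or_ge 0 (K.filter fun w => ¬ G.Adj v w).card with h6 | h6
    · have h7 : (K.filter fun w => ¬ G.Adj v w).card = 1 := by omega
      obtain ⟨u, hu⟩ := Finset.card_eq_one.1 h7
      have h8 : 0 < (K.filter fun u => ∀ w ∈ K.erase u, G.Adj v w).card := by
        rw [Finset.card_pos]
        have hu' : u ∈ K.filter fun w => ¬ G.Adj v w := by rw [hu]; exact Finset.mem_singleton_self u
        rw [Finset.mem_filter] at hu'
        refine ⟨u, Finset.mem_filter.2 ⟨hu'.1, ?_⟩⟩
        intro w hw
        rw [Finset.mem_erase] at hw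
        by_contra h
        have : w ∈ K.filter fun w => ¬ G.Adj v w := Finset.mem_filter.2 ⟨hw.2, h⟩
        rw [hu, Finset.mem_singleton] at this
        exact hw.1 this
      omega
    · have h7 : (K.filter fun w => ¬ G.Adj v w) = ∅ := by
        rw [← Finset.card_eq_zero]; omega
      have h8 : (K.filter fun u => ∀ w ∈ K.erase u, G.Adj v w) = K := by
        rw [Finset.filter_eq_self]
        intro u _ w hw
        rw [Finset.filter_eq_empty_iff] at h7
        exact not_not.1 (h7 (Finset.mem_of_mem_erase hw))
      rw [h8, hK]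
      omega

open scoped Classical in
theorem cod_le_mult {l : ℕ} {K : Finset V} (hK : K ∈ G.cliqueFinset l) {u x y : V} (hu : u ∈ K)
    (hx : x ∈ K.erase u) (hy : y ∈ K.erase u) : cod G (K.erase u) ≤ mult G l x y := by
  unfold cod mult
  rw [SimpleGraph.mem_cliqueFinset_iff] at hK
  have hl : 1 ≤ l := by
    rw [← hK.card_eq]
    exact Finset.card_pos.2 ⟨u, hu⟩
  have h1 : G.IsNClique (l - 1) (K.erase u) := hK.erase_of_mem hu
  refine Finset.card_le_card_of_injOn (fun v => insert v (K.erase u)) ?_ ?_
  · intro v hv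
    rw [Finset.mem_coe, Finset.mem_filter] at hv
    rw [Finset.mem_coe, Finset.mem_filter, SimpleGraph.mem_cliqueFinset_iff]
    refine ⟨?_, Finset.mem_insert_of_mem hx, Finset.mem_insert_of_mem hy⟩
    have h2 := h1.insert hv.2
    have h3 : l - 1 + 1 = l := by omega
    rwa [h3] at h2
  · intro v hv v' hv' h
    rw [Finset.mem_coe, Finset.mem_filter] at hv hv'
    have h2 : v ∈ insert v' (K.erase u) := by
      have : v ∈ insert v (K.erase u) := Finset.mem_insert_self _ _
      have h' : insert v (K.erase u) = insert v' (K.erase u) := h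
      rwa [h'] at this
    rw [Finset.mem_insert] at h2
    rcases h2 with h2 | h2
    · exact h2
    · exact absurd (hv.2 v h2) (G.loopless.irrefl v)

open scoped Classical in
theorem pr_univ : pr G Finset.univ = ((Finset.univ : Finset (V × V)).filter
    fun z => G.Adj z.1 z.2).card := by
  unfold pr
  congr 1
  rw [Finset.filter_eq_self]
  intro z _
  exact Finset.subset_univ _

open scoped Classical in
theorem ck_univ (l : ℕ) : ck G l Finset.univ = (G.cliqueFinset l).card := by
  unfold ck
  congr 1
  rw [Finset.filter_eq_self]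
  intro z _
  exact Finset.subset_univ _

open scoped Classical in
theorem card_adj_fst (L : Finset V) : (((Finset.univ : Finset (V × V)).filter
    fun z => G.Adj z.1 z.2).filter fun z => z.1 ∈ L).card = ∑ v ∈ L, dg G v := by
  unfold dg
  rw [← Finset.card_sigma]
  refine Finset.card_bij (fun z _ => ⟨z.1, z.2⟩) ?_ ?_ ?_
  · intro z hz
    rw [Finset.mem_filter, Finset.mem_filter] at hz
    rw [Finset.mem_sigma, Finset.mem_filter]
    exact ⟨hz.2, Finset.mem_univ _, hz.1.2⟩
  · intro a _ b _ hab
    have h5 := congrArg Sigma.fst hab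
    have h6 : a.2 = b.2 := by
      simpa using (Sigma.mk.inj_iff.1 hab).2
    exact Prod.ext h5 h6
  · rintro ⟨a, b⟩ hb
    rw [Finset.mem_sigma, Finset.mem_filter] at hb
    refine ⟨(a, b), ?_, rfl⟩
    rw [Finset.mem_filter, Finset.mem_filter]
    exact ⟨⟨Finset.mem_univ _, hb.2.2⟩, hb.1⟩

open scoped Classical in
theorem card_adj_snd (L : Finset V) : (((Finset.univ : Finset (V × V)).filter
    fun z => G.Adj z.1 z.2).filter fun z => z.2 ∈ L).card = ∑ v ∈ L, dg G v := by
  rw [← card_adj_fst]
  refine Finset.card_bij (fun z _ => (z.2, z.1)) ?_ ?_ ?_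
  · intro z hz
    rw [Finset.mem_filter, Finset.mem_filter] at hz ⊢
    exact ⟨⟨Finset.mem_univ _, hz.1.2.symm⟩, hz.2⟩
  · intro a _ b _ hab
    rw [Prod.mk.injEq] at hab
    exact Prod.ext hab.2 hab.1
  · rintro ⟨a, b⟩ hb
    rw [Finset.mem_filter, Finset.mem_filter] at hb
    refine ⟨(b, a), ?_, rfl⟩
    rw [Finset.mem_filter, Finset.mem_filter]
    exact ⟨⟨Finset.mem_univ _, hb.1.2.symm⟩, hb.2⟩

open scoped Classical in
theorem ck_le_univ (l : ℕ) (S : Finset V) : ck G l S ≤ ck G l Finset.univ := by
  rw [ck_univ]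
  exact Finset.card_le_card (Finset.filter_subset _ _)

/-- the edges are covered by a set `S` and the degrees of the other vertices -/
theorem pr_split (L S : Finset V) (hS : ∀ v, v ∈ S ↔ v ∉ L) :
    pr G Finset.univ ≤ pr G S + 2 * ∑ v ∈ L, dg G v := by
  classical
  rw [two_mul]
  nth_rewrite 1 [← card_adj_fst]
  rw [← card_adj_snd, pr_univ, pr]
  refine le_trans (Finset.card_le_card ?_) ((Finset.card_union_le _ _).trans
    (Nat.add_le_add_left (Finset.card_union_le _ _) _))
  intro z hz
  simp only [Finset.mem_union, Finset.mem_filter, Finset.insert_subset_iff,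
    Finset.singleton_subset_iff, hS, Finset.mem_univ, true_and] at hz ⊢
  tauto

theorem pr_le_cliques {l : ℕ}
    (hcov : ∀ x y, G.Adj x y → ∃ K : Finset V, G.IsNClique l K ∧ x ∈ K ∧ y ∈ K) :
    pr G Finset.univ ≤ l * (l - 1) * ck G l Finset.univ := by
  classical
  rw [pr_univ, ck_univ]
  refine le_trans (Finset.card_le_card (t := (G.cliqueFinset l).biUnion fun K => K.offDiag) ?_) ?_
  · intro z hz
    rw [Finset.mem_filter] at hz
    obtain ⟨K, hK, h1, h2⟩ := hcov _ _ hz.2
    rw [Finset.mem_biUnion]
    exact ⟨K, SimpleGraph.mem_cliqueFinset_iff.2 hK, Finset.mem_offDiag.2 ⟨h1, h2, hz.2.ne⟩⟩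
  · refine Finset.card_biUnion_le.trans ?_
    refine (Finset.sum_le_card_nsmul _ _ (l * (l - 1)) ?_).trans ?_
    · intro K hK
      rw [SimpleGraph.mem_cliqueFinset_iff] at hK
      rw [Finset.offDiag_card, hK.card_eq, Nat.mul_sub_one]
    · rw [smul_eq_mul, mul_comm]

/-- the main double counting: the edges in many cliques are few, and a clique without vertices of small
degree has at most `l - 1` other edges -/
theorem cover {l : ℕ} (hl : 4 ≤ l) {θ δ : ℝ} (hδ : 0 < δ) (hθ : θ = ((l : ℝ) - 2) / l + δ)
    (hV : 0 < Fintype.card V)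
    (hcov : ∀ x y, G.Adj x y → ∃ K : Finset V, G.IsNClique l K ∧ x ∈ K ∧ y ∈ K)
    (L : Finset V) (hL : ∀ v, v ∈ L ↔ (dg G v : ℝ) < θ * Fintype.card V) :
    (pr G Finset.univ : ℝ) ≤ l ^ 2 * ck G l Finset.univ / (δ * Fintype.card V) +
      2 * (L.card * (θ * Fintype.card V)) + (l - 1) * (l - 2) * ck G l Finset.univ := by
  classical
  have hl' : (4 : ℝ) ≤ l := by exact_mod_cast hl
  have hV' : (0 : ℝ) < Fintype.card V := by exact_mod_cast hV
  set n : ℝ := ((Fintype.card V : ℕ) : ℝ) with hn
  set Q : Finset (V × V) := Finset.univ.filter fun z => G.Adj z.1 z.2 with hQ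
  set H := Q.filter fun z => δ * n ≤ mult G l z.1 z.2 with hH
  set R := Q.filter fun z => ¬ (δ * n ≤ mult G l z.1 z.2) ∧ z.1 ∉ L ∧ z.2 ∉ L with hR
  have hdn : 0 < δ * n := mul_pos hδ hV'
  -- heavy pairs
  have h1 : (H.card : ℝ) ≤ l ^ 2 * ck G l Finset.univ / (δ * n) := by
    rw [le_div_iff₀ hdn]
    have h2 : (H.card : ℝ) * (δ * n) ≤ ∑ z ∈ Q, (mult G l z.1 z.2 : ℝ) := by
      calc (H.card : ℝ) * (δ * n) = ∑ _z ∈ H, δ * n := by rw [Finset.sum_const, nsmul_eq_mul]
        _ ≤ ∑ z ∈ H, (mult G l z.1 z.2 : ℝ) :=
          Finset.sum_le_sum fun z hz => (Finset.mem_filter.1 hz).2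
        _ ≤ ∑ z ∈ Q, (mult G l z.1 z.2 : ℝ) :=
          Finset.sum_le_sum_of_subset_of_nonneg (Finset.filter_subset _ _)
            fun _ _ _ => Nat.cast_nonneg _
    have h3 : ∑ z ∈ Q, mult G l z.1 z.2 ≤ l ^ 2 * ck G l Finset.univ := by
      simp only [mult, Finset.card_filter]
      rw [Finset.sum_comm]
      rw [ck_univ, mul_comm, ← smul_eq_mul]
      refine Finset.sum_le_card_nsmul _ _ _ ?_
      intro K hK
      rw [SimpleGraph.mem_cliqueFinset_iff] at hK
      rw [← Finset.card_filter]
      calc (Q.filter fun z => z.1 ∈ K ∧ z.2 ∈ K).card ≤ (K ×ˢ K).card := by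
            refine Finset.card_le_card fun z hz => ?_
            rw [Finset.mem_filter] at hz
            exact Finset.mem_product.2 hz.2
        _ = l ^ 2 := by rw [Finset.card_product, hK.card_eq, sq]
    have h4 : ∑ z ∈ Q, (mult G l z.1 z.2 : ℝ) ≤ l ^ 2 * ck G l Finset.univ := by
      exact_mod_cast h3
    linarith
  -- pairs with an element of small degree
  have h5 : ∑ v ∈ L, (dg G v : ℝ) ≤ L.card * (θ * n) := by
    rw [← nsmul_eq_mul]
    exact Finset.sum_le_card_nsmul _ _ _ fun v hv => ((hL v).1 hv).le
  -- the rest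
  have h6 : R.card ≤ (l - 1) * (l - 2) * ck G l Finset.univ := by
    rw [ck_univ]
    refine le_trans (Finset.card_le_card (t := (G.cliqueFinset l).biUnion fun K =>
      R.filter fun z => z.1 ∈ K ∧ z.2 ∈ K) ?_) ?_
    · intro z hz
      have hz' := hz
      rw [hR, Finset.mem_filter, hQ, Finset.mem_filter] at hz'
      obtain ⟨K, hK, h1, h2⟩ := hcov _ _ hz'.1.2
      rw [Finset.mem_biUnion]
      exact ⟨K, SimpleGraph.mem_cliqueFinset_iff.2 hK, Finset.mem_filter.2 ⟨hz, h1, h2⟩⟩
    · refine Finset.card_biUnion_le.trans ?_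
      refine (Finset.sum_le_card_nsmul _ _ ((l - 1) * (l - 2)) ?_).trans ?_
      · intro K hK
        have hK' := SimpleGraph.mem_cliqueFinset_iff.1 hK
        by_cases hKL : ∃ u ∈ K, u ∈ L
        · obtain ⟨u, hu, huL⟩ := hKL
          calc (R.filter fun z => z.1 ∈ K ∧ z.2 ∈ K).card ≤ (K.erase u).offDiag.card := by
                refine Finset.card_le_card fun z hz => ?_
                rw [Finset.mem_filter, hR, Finset.mem_filter, hQ, Finset.mem_filter] at hz
                obtain ⟨⟨⟨-, hz1⟩, -, hz2, hz3⟩, hz4, hz5⟩ := hz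
                rw [Finset.mem_offDiag, Finset.mem_erase, Finset.mem_erase]
                refine ⟨⟨?_, hz4⟩, ⟨?_, hz5⟩, hz1.ne⟩
                · rintro rfl; exact hz2 huL
                · rintro rfl; exact hz3 huL
            _ = (l - 1) * (l - 2) := by
                rw [Finset.offDiag_card, Finset.card_erase_of_mem hu, hK'.card_eq,
                  ← Nat.mul_sub_one]
                congr 1
        · push Not at hKL
          have h7 : ∃ u ∈ K, δ * n ≤ cod G (K.erase u) := by
            refine Finset.exists_le_of_sum_le (s := K) (f := fun _ => δ * n) ?_ ?_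
            · rw [← Finset.card_pos, hK'.card_eq]
              omega
            · have h8 := sum_dg_le G (by omega : 2 ≤ l) K hK'.card_eq
              have h9 : (∑ w ∈ K, (dg G w : ℝ)) ≤ (l - 2) * n + ∑ u ∈ K, (cod G (K.erase u) : ℝ) := by
                have : ((∑ w ∈ K, dg G w : ℕ) : ℝ) ≤
                    (((l - 2) * Fintype.card V + ∑ u ∈ K, cod G (K.erase u) : ℕ) : ℝ) := by
                  exact_mod_cast h8
                push_cast [Nat.cast_sub (show 2 ≤ l by omega)] at this
                exact this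
              have h10 : (l : ℝ) * (θ * n) ≤ ∑ w ∈ K, (dg G w : ℝ) := by
                have : K.card • (θ * n) ≤ ∑ w ∈ K, (dg G w : ℝ) :=
                  Finset.card_nsmul_le_sum _ _ _ fun w hw => by
                    have := hKL w hw
                    rw [hL] at this
                    exact not_lt.1 this
                rwa [hK'.card_eq, nsmul_eq_mul] at this
              have h11 : (l : ℝ) * θ = l - 2 + l * δ := by
                rw [hθ]
                field_simp
              rw [Finset.sum_const, hK'.card_eq, nsmul_eq_mul]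
              have h12 : (l : ℝ) * (θ * n) = (l - 2) * n + l * (δ * n) := by
                rw [← mul_assoc, h11]; ring
              linarith
          obtain ⟨u, hu, h8⟩ := h7
          calc (R.filter fun z => z.1 ∈ K ∧ z.2 ∈ K).card ≤
              ((K.erase u).image (fun w => (u, w)) ∪ (K.erase u).image (fun w => (w, u))).card := by
                refine Finset.card_le_card fun z hz => ?_
                rw [Finset.mem_filter, hR, Finset.mem_filter, hQ, Finset.mem_filter] at hz
                obtain ⟨⟨⟨-, hz1⟩, hz0, hz2, hz3⟩, hz4, hz5⟩ := hz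
                rw [Finset.mem_union, Finset.mem_image, Finset.mem_image]
                by_cases hu1 : z.1 = u
                · left
                  exact ⟨z.2, Finset.mem_erase.2 ⟨fun h => hz1.ne (hu1.trans h.symm), hz5⟩,
                    Prod.ext hu1.symm rfl⟩
                · by_cases hu2 : z.2 = u
                  · right
                    exact ⟨z.1, Finset.mem_erase.2 ⟨hu1, hz4⟩, Prod.ext rfl hu2.symm⟩
                  · exfalso
                    apply hz0
                    refine h8.trans ?_
                    exact_mod_cast cod_le_mult G hK hu (Finset.mem_erase.2 ⟨hu1, hz4⟩)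
                      (Finset.mem_erase.2 ⟨hu2, hz5⟩)
            _ ≤ (l - 1) + (l - 1) := by
                refine (Finset.card_union_le _ _).trans (Nat.add_le_add ?_ ?_)
                · refine Finset.card_image_le.trans ?_
                  rw [Finset.card_erase_of_mem hu, hK'.card_eq]
                · refine Finset.card_image_le.trans ?_
                  rw [Finset.card_erase_of_mem hu, hK'.card_eq]
            _ ≤ (l - 1) * (l - 2) := by
                rw [← mul_two]
                exact Nat.mul_le_mul_left _ (by omega)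
      · rw [smul_eq_mul, mul_comm]
  have h7 : (R.card : ℝ) ≤ (l - 1) * (l - 2) * ck G l Finset.univ := by
    have : (R.card : ℝ) ≤ (((l - 1) * (l - 2) * ck G l Finset.univ : ℕ) : ℝ) := by exact_mod_cast h6
    push_cast [Nat.cast_sub (show 2 ≤ l by omega), Nat.cast_sub (show 1 ≤ l by omega)] at this
    exact this
  have h8 : pr G Finset.univ ≤ H.card + (∑ v ∈ L, dg G v + ∑ v ∈ L, dg G v) + R.card := by
    nth_rewrite 1 [← card_adj_fst]
    rw [← card_adj_snd, pr_univ]
    refine le_trans (Finset.card_le_card (t := (H ∪ ((Q.filter fun z => z.1 ∈ L) ∪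
      (Q.filter fun z => z.2 ∈ L))) ∪ R) ?_) ?_
    · intro z hz
      have hz' : z ∈ Q := hz
      rw [Finset.mem_union, Finset.mem_union, Finset.mem_union, hH, hR]
      simp only [Finset.mem_filter]
      tauto
    · refine (Finset.card_union_le _ _).trans (Nat.add_le_add_right ?_ _)
      refine (Finset.card_union_le _ _).trans (Nat.add_le_add_left ?_ _)
      exact Finset.card_union_le _ _
  have h9 : (pr G Finset.univ : ℝ) ≤ H.card + (∑ v ∈ L, (dg G v : ℝ) + ∑ v ∈ L, (dg G v : ℝ)) +
      R.card := by
    exact_mod_cast h8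
  linarith

end Pool.Agent.X266.IDL
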