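import Pool.Agent.X266.IDL.Cover

/-!
# The bound for graphs in which every edge is in an `l`-clique
-/

set_option autoImplicit false

namespace Pool.Agent.X266.IDL

open Finset Filter Topology

/-- the constant `c_l` -/
noncomputable def cc (l : ℕ) : ℝ := ((l : ℝ) + 3) / ((l - 1) * (l + 1))

/-- leading coefficient in the first case -/
noncomputable def fA (l δ : ℝ) : ℝ :=
  1 - ((l - 2) / (l - 1) + δ) * (1 - 2 / ((l - 1) * (l - 2))) -
    2 * (2 / ((l - 1) * (l - 2))) * ((l - 2) / l + δ) / l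

/-- leading coefficient in the second case -/
noncomputable def fB (l δ : ℝ) : ℝ :=
  1 - (1 - 2 / (l * (l - 1))) *
    (((l - 2) / (l - 1) + δ) * (1 - 1 / l) ^ 2 + 2 * ((l - 2) / l + δ) / l)

theorem fA_zero {l : ℕ} (hl : 4 ≤ l) : cc l < fA l 0 := by
  have hl' : (4 : ℝ) ≤ l := by exact_mod_cast hl
  have h1 : (0 : ℝ) < (l : ℝ) - 1 := by linarith
  have h2 : (0 : ℝ) < (l : ℝ) - 2 := by linarith
  have h3 : (0 : ℝ) < (l : ℝ) := by linarith
  have h4 : (0 : ℝ) < (l : ℝ) + 1 := by linarith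
  have key : fA l 0 - cc l = 4 / ((l - 1) ^ 2 * l ^ 2 * (l + 1)) := by
    unfold fA cc
    field_simp
    ring
  have : 0 < fA l 0 - cc l := by
    rw [key]
    positivity
  linarith

theorem fB_zero {l : ℕ} (hl : 4 ≤ l) : cc l < fB l 0 := by
  have hl' : (4 : ℝ) ≤ l := by exact_mod_cast hl
  have h1 : (0 : ℝ) < (l : ℝ) - 1 := by linarith
  have h3 : (0 : ℝ) < (l : ℝ) := by linarith
  have h4 : (0 : ℝ) < (l : ℝ) + 1 := by linarith
  have key : fB l 0 - cc l = (((l : ℝ) ^ 2 - 3 * l - 2) * (l ^ 2 + l - 2)) /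
      (l ^ 3 * (l - 1) ^ 2 * (l + 1)) := by
    unfold fB cc
    field_simp
    ring
  have h5 : 0 < (l : ℝ) ^ 2 - 3 * l - 2 := by nlinarith
  have h6 : 0 < (l : ℝ) ^ 2 + l - 2 := by nlinarith
  have : 0 < fB l 0 - cc l := by
    rw [key]
    positivity
  linarith

theorem exists_delta {l : ℕ} (hl : 4 ≤ l) : ∃ δ : ℝ, 0 < δ ∧ δ ≤ 1 ∧ cc l < fA l δ ∧ cc l < fB l δ := by
  have hcA : Continuous fun δ : ℝ => fA l δ := by
    unfold fA
    fun_prop
  have hcB : Continuous fun δ : ℝ => fB l δ := by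
    unfold fB
    fun_prop
  have hA : ∀ᶠ δ in 𝓝 (0 : ℝ), cc l < fA l δ :=
    (hcA.tendsto 0).eventually (lt_mem_nhds (fA_zero hl))
  have hB : ∀ᶠ δ in 𝓝 (0 : ℝ), cc l < fB l δ :=
    (hcB.tendsto 0).eventually (lt_mem_nhds (fB_zero hl))
  obtain ⟨r, hr, h⟩ := Metric.eventually_nhds_iff.1 (hA.and hB)
  refine ⟨min (r / 2) 1, lt_min (by linarith) one_pos, min_le_right _ _, ?_⟩
  apply h
  rw [Real.dist_eq, sub_zero, abs_of_pos (lt_min (by linarith) one_pos)]
  exact (min_le_left _ _).trans_lt (by linarith)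

theorem caseA {l δ n p k B : ℝ} (hl : 4 ≤ l) (hB : 0 ≤ B)
    (h1 : p ≤ ((l - 2) / (l - 1) + δ) * n ^ 2 + B)
    (h2 : p ≤ l ^ 2 * n / δ + 2 * (n / l * (((l - 2) / l + δ) * n)) + (l - 1) * (l - 2) * k) :
    n ^ 2 * fA l δ - n * (1 + 2 / ((l - 1) * (l - 2)) * (l ^ 2 / δ)) - B ≤
      n ^ 2 - n - p + 2 * k := by
  have hq : 6 ≤ (l - 1) * (l - 2) := by nlinarith
  unfold fA
  generalize hα : (l - 2) / (l - 1) + δ = α at *
  generalize hθ : (l - 2) / l + δ = θ at *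
  generalize hq' : (l - 1) * (l - 2) = q at *
  have hq0 : 0 < q := by linarith
  obtain ⟨u, hu⟩ : ∃ u, u = 2 / q := ⟨_, rfl⟩
  have hu1 : u * q = 2 := by rw [hu]; field_simp
  have hu0 : 0 < u := by rw [hu]; positivity
  have hu2 : u ≤ 1 := by rw [hu, div_le_one hq0]; linarith
  rw [← hu]
  have h3 : u * p ≤ u * (l ^ 2 * n / δ + 2 * (n / l * (θ * n))) + 2 * k := by
    have := mul_le_mul_of_nonneg_left h2 hu0.le
    have e : u * (l ^ 2 * n / δ + 2 * (n / l * (θ * n)) + q * k) =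
        u * (l ^ 2 * n / δ + 2 * (n / l * (θ * n))) + (u * q) * k := by ring
    rw [e, hu1] at this
    exact this
  have h4 : (1 - u) * p ≤ (1 - u) * (α * n ^ 2 + B) :=
    mul_le_mul_of_nonneg_left h1 (by linarith)
  have h5 : (1 - u) * B ≤ B := by nlinarith
  have e1 : n ^ 2 * (1 - α * (1 - u) - 2 * u * θ / l) - n * (1 + u * (l ^ 2 / δ)) - B =
      n ^ 2 - n - (1 - u) * (α * n ^ 2 + B) - u * (l ^ 2 * n / δ + 2 * (n / l * (θ * n))) -
        (B - (1 - u) * B) := by ring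
  rw [e1]
  linarith

theorem caseB {l δ n p k B : ℝ} (hl : 4 ≤ l) (hδ : 0 ≤ δ) (hn : 0 ≤ n) (hB : 0 ≤ B)
    (h1 : p ≤ ((l - 2) / (l - 1) + δ) * ((1 - 1 / l) * n) ^ 2 + B +
      2 * ((n / l + 1) * (((l - 2) / l + δ) * n)))
    (h2 : p ≤ l * (l - 1) * k) :
    n ^ 2 * fB l δ - n * (1 + 2 * ((l - 2) / l + δ)) - B ≤ n ^ 2 - n - p + 2 * k := by
  have hq : 12 ≤ l * (l - 1) := by nlinarith
  unfold fB
  have hθ0 : 0 ≤ (l - 2) / l + δ := by
    have : 0 ≤ (l - 2) / l := div_nonneg (by linarith) (by linarith)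
    linarith
  generalize hα : (l - 2) / (l - 1) + δ = α at *
  generalize hθ : (l - 2) / l + δ = θ at *
  generalize hq' : l * (l - 1) = q at *
  have hq0 : 0 < q := by linarith
  obtain ⟨u, hu⟩ : ∃ u, u = 2 / q := ⟨_, rfl⟩
  have hu1 : u * q = 2 := by rw [hu]; field_simp
  have hu0 : 0 < u := by rw [hu]; positivity
  have hu2 : u ≤ 1 := by rw [hu, div_le_one hq0]; linarith
  rw [← hu]
  have h3 : u * p ≤ 2 * k := by
    have := mul_le_mul_of_nonneg_left h2 hu0.le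
    rwa [← mul_assoc, hu1] at this
  have h4 := mul_le_mul_of_nonneg_left h1 (by linarith : 0 ≤ 1 - u)
  have h5 : (1 - u) * B ≤ B := by nlinarith
  have h6 : (1 - u) * (2 * θ * n) ≤ 2 * θ * n := by
    have : 0 ≤ u * (2 * θ * n) := by positivity
    nlinarith
  have e1 : (1 - u) * (α * ((1 - 1 / l) * n) ^ 2 + B + 2 * ((n / l + 1) * (θ * n))) =
      n ^ 2 * ((1 - u) * (α * (1 - 1 / l) ^ 2 + 2 * θ / l)) + (1 - u) * B +
        (1 - u) * (2 * θ * n) := by ring
  rw [e1] at h4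
  have e2 : n ^ 2 * (1 - (1 - u) * (α * (1 - 1 / l) ^ 2 + 2 * θ / l)) - n * (1 + 2 * θ) - B =
      n ^ 2 - n - n ^ 2 * ((1 - u) * (α * (1 - 1 / l) ^ 2 + 2 * θ / l)) - 2 * θ * n - B := by ring
  rw [e2]
  linarith

/-- For every `l ≥ 4` there is `ε > 0` such that for large `n`: if every edge of a graph with `n` vertices is in
an `l`-clique, then the number of pairs which are not edges plus the number of `l`-cliques is at least
`(c_l + ε) n (n - 1) / 2`. -/
theorem graph_main {l : ℕ} (hl : 4 ≤ l) : ∃ ε : ℝ, 0 < ε ∧ ∃ n₀ : ℕ, ∀ n : ℕ, n₀ ≤ n →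
    ∀ G : SimpleGraph (Fin n),
      (∀ x y, G.Adj x y → ∃ K : Finset (Fin n), G.IsNClique l K ∧ x ∈ K ∧ y ∈ K) →
      (cc l + ε) * ((n : ℝ) * (n - 1)) ≤
        (n : ℝ) * (n - 1) - pr G Finset.univ + 2 * ck G l Finset.univ := by
  classical
  obtain ⟨δ, hδ, hδ1, hA, hB⟩ := exists_delta hl
  have hl' : (4 : ℝ) ≤ l := by exact_mod_cast hl
  have hl0 : (0 : ℝ) < l := by linarith
  have hl1 : (0 : ℝ) < (l : ℝ) - 1 := by linarith
  have hl2 : (0 : ℝ) < (l : ℝ) - 2 := by linarith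
  set θ : ℝ := ((l : ℝ) - 2) / l + δ with hθ
  set α : ℝ := ((l : ℝ) - 2) / (l - 1) + δ with hα
  have hθ0 : 0 < θ := by positivity
  have hα0 : 0 < α := by positivity
  obtain ⟨M0, hM0⟩ := exists_nat_ge (2 / δ)
  set M := M0 + 5 with hMdef
  have hM5 : 5 ≤ M := by omega
  have hδM : 2 ≤ δ * M := by
    rw [div_le_iff₀ hδ] at hM0
    have : (M : ℝ) = M0 + 5 := by rw [hMdef]; push_cast; ring
    rw [this]
    nlinarith
  have ht1 : ((l : ℝ) - 2) / (l - 1) ≤ 1 := by rw [div_le_one hl1]; linarith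
  have hαM : ((l : ℝ) - 2) / (l - 1) * M ≤ α * (M - 1) := by
    rw [hα]
    nlinarith
  set F := min (fA l δ) (fB l δ) with hF
  have hFc : cc l < F := lt_min hA hB
  set ε := (F - cc l) / 2 with hε
  have hε0 : 0 < ε := by rw [hε]; linarith
  have hF1 : F ≤ 1 := by
    refine (min_le_left _ _).trans ?_
    have hq : 6 ≤ ((l : ℝ) - 1) * (l - 2) := by nlinarith
    have h1 : 0 ≤ α * (1 - 2 / (((l : ℝ) - 1) * (l - 2))) := by
      refine mul_nonneg hα0.le ?_
      rw [sub_nonneg, div_le_one (by linarith)]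
      linarith
    have h2 : 0 ≤ 2 * (2 / (((l : ℝ) - 1) * (l - 2))) * θ / l := by positivity
    have : fA l δ = 1 - α * (1 - 2 / (((l : ℝ) - 1) * (l - 2))) -
        2 * (2 / (((l : ℝ) - 1) * (l - 2))) * θ / l := rfl
    rw [this]
    linarith
  set B : ℝ := 4 * (M : ℝ) ^ 4 with hBdef
  have hB0 : 0 ≤ B := by positivity
  set A1 : ℝ := 1 + 2 / (((l : ℝ) - 1) * (l - 2)) * (l ^ 2 / δ) + 2 * θ with hA1
  have hA10 : 0 ≤ 2 / (((l : ℝ) - 1) * (l - 2)) * ((l : ℝ) ^ 2 / δ) := by positivity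
  obtain ⟨n1, hn1⟩ := exists_nat_ge ((A1 + B) / ε)
  refine ⟨ε, hε0, n1 + 2 * M + 16, ?_⟩
  intro n hn G hcov
  have hn16 : (16 : ℝ) ≤ n := by exact_mod_cast (by omega : 16 ≤ n)
  have hnM : (2 : ℝ) * M + 16 ≤ n := by exact_mod_cast (by omega : 2 * M + 16 ≤ n)
  have hn1' : A1 + B ≤ ε * n := by
    rw [div_le_iff₀ hε0] at hn1
    have : (n1 : ℝ) ≤ n := by exact_mod_cast (by omega : n1 ≤ n)
    nlinarith
  set p : ℝ := (pr G Finset.univ : ℝ) with hp
  set k : ℝ := (ck G l Finset.univ : ℝ) with hk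
  have hk0 : 0 ≤ k := Nat.cast_nonneg _
  have hp0 : 0 ≤ p := Nat.cast_nonneg _
  have hlow : (cc l + ε) * ((n : ℝ) * (n - 1)) ≤ (cc l + ε) * (n : ℝ) ^ 2 := by
    have hc0 : 0 ≤ cc l + ε := by
      have : 0 ≤ cc l := by unfold cc; positivity
      linarith
    refine mul_le_mul_of_nonneg_left ?_ hc0
    nlinarith
  -- it is enough to have the bound with `F`
  have enough : (n : ℝ) ^ 2 * F - n * A1 - B ≤ (n : ℝ) ^ 2 - n - p + 2 * k →
      (cc l + ε) * ((n : ℝ) * (n - 1)) ≤ (n : ℝ) * (n - 1) - p + 2 * k := by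
    intro h
    have h1 : (n : ℝ) * A1 + B ≤ ε * (n : ℝ) ^ 2 := by
      have h2 : (n : ℝ) * (A1 + B) ≤ n * (ε * n) := mul_le_mul_of_nonneg_left hn1' (by linarith)
      have h3 : B ≤ n * B := by nlinarith
      nlinarith
    have h2 : F = cc l + ε + ε := by rw [hε]; ring
    have h3 : (n : ℝ) ^ 2 * F = (cc l + ε) * (n : ℝ) ^ 2 + ε * (n : ℝ) ^ 2 := by rw [h2]; ring
    nlinarith
  by_cases hkn : (n : ℝ) ^ 2 < k
  · have hpn : p ≤ (n : ℝ) ^ 2 := by
      have := pr_le G Finset.univ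
      rw [Finset.card_univ, Fintype.card_fin] at this
      rw [hp]
      exact_mod_cast this
    have hc1 : cc l + ε ≤ 1 := by
      have : cc l + ε = (cc l + F) / 2 := by rw [hε]; ring
      rw [this]
      linarith
    have h1 : (cc l + ε) * ((n : ℝ) * (n - 1)) ≤ 1 * ((n : ℝ) * (n - 1)) :=
      mul_le_mul_of_nonneg_right hc1 (mul_nonneg (by linarith) (by linarith))
    nlinarith
  push Not at hkn
  have hMn : M ≤ n := by omega
  set L : Finset (Fin n) := Finset.univ.filter fun v => (dg G v : ℝ) < θ * Fintype.card (Fin n)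
    with hL
  have hL' : ∀ v, v ∈ L ↔ (dg G v : ℝ) < θ * Fintype.card (Fin n) := by
    intro v
    rw [hL, Finset.mem_filter]
    simp
  by_cases hLn : (L.card : ℝ) ≤ n / l
  · -- few vertices of small degree
    apply enough
    have h1 := turan_few G hl hM5 hα0.le hαM n hMn Finset.univ (by simp)
    have h2 := cover G hl hδ hθ (by rw [Fintype.card_fin]; omega) hcov L hL'
    rw [Fintype.card_fin] at h2
    rw [← hp, ← hk] at h1 h2
    have h3 : (M : ℝ) ^ 4 * k / (((n : ℝ) - 2) * (n - 3)) ≤ B := by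
      rw [div_le_iff₀ (mul_pos (by linarith) (by linarith)), hBdef]
      have h4 : k ≤ 4 * (((n : ℝ) - 2) * (n - 3)) := by nlinarith
      have h5 : (0 : ℝ) ≤ (M : ℝ) ^ 4 := by positivity
      nlinarith
    have h4 : p ≤ α * (n : ℝ) ^ 2 + B := by nlinarith
    have h5 : p ≤ (l : ℝ) ^ 2 * n / δ + 2 * (n / l * (θ * n)) + (l - 1) * (l - 2) * k := by
      have h6 : (l : ℝ) ^ 2 * k / (δ * n) ≤ (l : ℝ) ^ 2 * n / δ := by
        rw [div_le_div_iff₀ (by positivity) hδ]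
        have h7 : (0 : ℝ) ≤ (l : ℝ) ^ 2 * δ := by positivity
        nlinarith
      have h7 : (L.card : ℝ) * (θ * n) ≤ n / l * (θ * n) :=
        mul_le_mul_of_nonneg_right hLn (by positivity)
      linarith
    have h6 := caseA (n := n) hl' hB0 h4 h5
    have h7 : (n : ℝ) ^ 2 * F ≤ (n : ℝ) ^ 2 * fA l δ :=
      mul_le_mul_of_nonneg_left (min_le_left _ _) (by positivity)
    have h8 : (n : ℝ) * (1 + 2 / (((l : ℝ) - 1) * (l - 2)) * (l ^ 2 / δ)) ≤ n * A1 := by
      refine mul_le_mul_of_nonneg_left ?_ (by linarith)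
      rw [hA1]
      linarith
    linarith
  · -- many vertices of small degree
    push Not at hLn
    apply enough
    have ha1 : ⌈(n : ℝ) / l⌉₊ ≤ L.card := Nat.ceil_le.2 hLn.le
    obtain ⟨L', hL'L, hL'c⟩ := Finset.exists_subset_card_eq ha1
    have ha2 : (n : ℝ) / l ≤ L'.card := by rw [hL'c]; exact Nat.le_ceil _
    have ha3 : (L'.card : ℝ) ≤ n / l + 1 := by
      rw [hL'c]; exact (Nat.ceil_lt_add_one (by positivity)).le
    have hnl : (n : ℝ) / l ≤ n / 4 := by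
      rw [div_le_div_iff₀ hl0 (by norm_num)]
      nlinarith
    have hs1 : ((L'ᶜ).card : ℝ) = n - L'.card := by
      rw [Finset.card_compl, Fintype.card_fin, Nat.cast_sub]
      have := Finset.card_le_univ L'
      rwa [Fintype.card_fin] at this
    have hs2 : M ≤ (L'ᶜ).card := by
      have : (M : ℝ) ≤ ((L'ᶜ).card : ℝ) := by rw [hs1]; linarith
      exact_mod_cast this
    have h1 := turan_few G hl hM5 hα0.le hαM _ hs2 L'ᶜ rfl
    set s : ℝ := ((L'ᶜ).card : ℝ) with hs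
    have hs3 : (n : ℝ) / 2 ≤ s - 3 := by rw [hs1]; linarith
    have hs4 : s ≤ (1 - 1 / l) * n := by
      rw [hs1]
      have : (1 - 1 / (l : ℝ)) * n = n - n / l := by ring
      rw [this]
      linarith
    have hkS : (ck G l L'ᶜ : ℝ) ≤ k := by
      rw [hk]
      exact_mod_cast ck_le_univ G l _
    have hkS0 : (0 : ℝ) ≤ ck G l L'ᶜ := Nat.cast_nonneg _
    have h3 : (M : ℝ) ^ 4 * ck G l L'ᶜ / ((s - 2) * (s - 3)) ≤ B := by
      rw [div_le_iff₀ (mul_pos (by linarith) (by linarith)), hBdef]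
      have h4 : (ck G l L'ᶜ : ℝ) ≤ 4 * ((s - 2) * (s - 3)) := by
        have h5 : ((n : ℝ) / 2) * (n / 2) ≤ (s - 2) * (s - 3) :=
          mul_le_mul (by linarith) hs3 (by linarith) (by linarith)
        nlinarith
      have h5 : (0 : ℝ) ≤ (M : ℝ) ^ 4 := by positivity
      nlinarith
    have h4 : α * (s * (s - 1)) ≤ α * ((1 - 1 / (l : ℝ)) * n) ^ 2 := by
      refine mul_le_mul_of_nonneg_left ?_ hα0.le
      have hs0 : 0 ≤ s := by linarith
      have : s * (s - 1) ≤ s ^ 2 := by nlinarith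
      exact this.trans (pow_le_pow_left₀ hs0 hs4 2)
    have h5 : p ≤ (pr G L'ᶜ : ℝ) + 2 * ((n / l + 1) * (θ * n)) := by
      have h6 := pr_split G L' L'ᶜ (fun v => Finset.mem_compl)
      have h7 : p ≤ (pr G L'ᶜ : ℝ) + 2 * ∑ v ∈ L', (dg G v : ℝ) := by
        rw [hp]; exact_mod_cast h6
      have h8 : ∑ v ∈ L', (dg G v : ℝ) ≤ L'.card * (θ * n) := by
        rw [← nsmul_eq_mul]
        refine Finset.sum_le_card_nsmul _ _ _ fun v hv => ?_
        have := (hL' v).1 (hL'L hv)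
        rw [Fintype.card_fin] at this
        exact this.le
      have h9 : (L'.card : ℝ) * (θ * n) ≤ (n / l + 1) * (θ * n) :=
        mul_le_mul_of_nonneg_right ha3 (by positivity)
      linarith
    have h6 : p ≤ α * ((1 - 1 / (l : ℝ)) * n) ^ 2 + B + 2 * ((n / l + 1) * (θ * n)) := by
      linarith
    have h7 : p ≤ (l : ℝ) * (l - 1) * k := by
      have h8 := pr_le_cliques G hcov
      have h9 : p ≤ ((l * (l - 1) * ck G l Finset.univ : ℕ) : ℝ) := by
        rw [hp]; exact_mod_cast h8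
      push_cast [Nat.cast_sub (show 1 ≤ l by omega)] at h9
      exact h9
    have h8 := caseB (n := n) hl' hδ.le (by linarith) hB0 h6 h7
    have h9 : (n : ℝ) ^ 2 * F ≤ (n : ℝ) ^ 2 * fB l δ :=
      mul_le_mul_of_nonneg_left (min_le_right _ _) (by positivity)
    have h10 : (n : ℝ) * (1 + 2 * θ) ≤ n * A1 := by
      refine mul_le_mul_of_nonneg_left ?_ (by linarith)
      rw [hA1]
      linarith
    linarith

end Pool.Agent.X266.IDL
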