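import Mathlib

/-!
# Turán's theorem for graphs with few cliques
-/

set_option autoImplicit false

namespace Pool.Agent.X266.IDL

open Finset

open scoped Classical in
/-- averaging over the deletion of one element -/
theorem avg {ι V : Type} (F : Finset ι) (supp : ι → Finset V) (j : ℕ)
    (hF : ∀ a ∈ F, (supp a).card = j) (S : Finset V) :
    ∑ v ∈ S, ((F.filter fun a => supp a ⊆ S.erase v).card : ℝ) =
      ((S.card : ℝ) - j) * ((F.filter fun a => supp a ⊆ S).card : ℝ) := by
  have h1 : ∀ v ∈ S, ((F.filter fun a => supp a ⊆ S.erase v).card : ℝ) =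
      ∑ a ∈ F, if supp a ⊆ S.erase v then (1 : ℝ) else 0 := by
    intro v _
    rw [Finset.sum_boole]
  rw [Finset.sum_congr rfl h1, Finset.sum_comm]
  have h2 : ∀ a ∈ F, (∑ v ∈ S, if supp a ⊆ S.erase v then (1 : ℝ) else 0) =
      ((S.card : ℝ) - j) * (if supp a ⊆ S then (1 : ℝ) else 0) := by
    intro a ha
    rw [Finset.sum_boole]
    by_cases h : supp a ⊆ S
    · have h3 : (S.filter fun v => supp a ⊆ S.erase v) = S \ supp a := by
        ext v
        rw [Finset.mem_filter, Finset.mem_sdiff, Finset.subset_erase]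
        tauto
      rw [h3, Finset.card_sdiff_of_subset h, if_pos h, mul_one, hF a ha,
        Nat.cast_sub (by rw [← hF a ha]; exact Finset.card_le_card h)]
    · have h3 : (S.filter fun v => supp a ⊆ S.erase v) = ∅ := by
        rw [Finset.filter_eq_empty_iff]
        intro v _ hv
        exact h ((Finset.subset_erase.1 hv).1)
      rw [h3, if_neg h]
      simp
  rw [Finset.sum_congr rfl h2, ← Finset.mul_sum, Finset.sum_boole]

open scoped Classical in
/-- the number of ordered pairs of adjacent vertices in `S` -/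
noncomputable def pr {V : Type} [Fintype V] (G : SimpleGraph V) (S : Finset V) : ℕ :=
  (((Finset.univ : Finset (V × V)).filter fun z => G.Adj z.1 z.2).filter
    fun z => ({z.1, z.2} : Finset V) ⊆ S).card

open scoped Classical in
/-- the number of `l`-cliques in `S` -/
noncomputable def ck {V : Type} [Fintype V] (G : SimpleGraph V) (l : ℕ) (S : Finset V) : ℕ :=
  ((G.cliqueFinset l).filter fun K => K ⊆ S).card

open scoped Classical in
theorem turan_bound {V : Type} [Fintype V] (G : SimpleGraph V) {r : ℕ} (hr : 0 < r)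
    (cf : G.CliqueFree (r + 1)) : 2 * r * #G.edgeFinset ≤ (r - 1) * (Fintype.card V) ^ 2 := by
  obtain ⟨H, _, maxH⟩ := SimpleGraph.exists_isTuranMaximal (V := V) hr
  have h1 : #G.edgeFinset ≤ #H.edgeFinset := by
    convert maxH.2 cf
  have h2 : #H.edgeFinset = #(SimpleGraph.turanGraph (Fintype.card V) r).edgeFinset :=
    ((SimpleGraph.isTuranMaximal_iff_nonempty_iso_turanGraph hr).mp maxH).some.card_edgeFinset_eq
  calc 2 * r * #G.edgeFinset ≤ 2 * r * #(SimpleGraph.turanGraph (Fintype.card V) r).edgeFinset := by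
        rw [← h2]
        exact Nat.mul_le_mul_left _ h1
    _ ≤ _ := SimpleGraph.mul_card_edgeFinset_turanGraph_le

open scoped Classical in
theorem pr_turan {V : Type} [Fintype V] (G : SimpleGraph V) {r : ℕ} (hr : 0 < r) (S : Finset V)
    (h : ck G (r + 1) S = 0) : r * pr G S ≤ (r - 1) * S.card ^ 2 := by
  have cf : (G.comap (Subtype.val : {x // x ∈ S} → V)).CliqueFree (r + 1) := by
    intro t ht
    rw [ck, Finset.card_eq_zero, Finset.filter_eq_empty_iff] at h
    refine h (x := t.map (Function.Embedding.subtype _)) ?_ ?_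
    · rw [SimpleGraph.mem_cliqueFinset_iff, SimpleGraph.isNClique_iff]
      refine ⟨?_, by rw [Finset.card_map]; exact ht.card_eq⟩
      intro a ha b hb hab
      rw [Finset.mem_coe, Finset.mem_map] at ha hb
      obtain ⟨a', ha', rfl⟩ := ha
      obtain ⟨b', hb', rfl⟩ := hb
      have := ht.isClique ha' hb' (fun h => hab (by rw [h]))
      exact this
    · intro a ha
      rw [Finset.mem_map] at ha
      obtain ⟨a', -, rfl⟩ := ha
      exact a'.2
  have h1 := turan_bound (G.comap (Subtype.val : {x // x ∈ S} → V)) hr cf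
  rw [Fintype.card_coe] at h1
  have h2 : pr G S = 2 * #(G.comap (Subtype.val : {x // x ∈ S} → V)).edgeFinset := by
    rw [← SimpleGraph.sum_degrees_eq_twice_card_edges]
    have h3 : ∀ v : {x // x ∈ S}, (G.comap (Subtype.val : {x // x ∈ S} → V)).degree v =
        (S.filter fun w => G.Adj v.1 w).card := by
      intro v
      rw [← SimpleGraph.card_neighborFinset_eq_degree]
      refine Finset.card_bij (fun a _ => a.1) ?_ ?_ ?_
      · intro a ha
        rw [SimpleGraph.mem_neighborFinset] at ha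
        rw [Finset.mem_filter]
        exact ⟨a.2, ha⟩
      · intro a _ b _ hab
        exact Subtype.ext hab
      · intro b hb
        rw [Finset.mem_filter] at hb
        exact ⟨⟨b, hb.1⟩, by rw [SimpleGraph.mem_neighborFinset]; exact hb.2, rfl⟩
    rw [Finset.sum_congr rfl (fun v _ => h3 v)]
    have h4 : ∑ v : {x // x ∈ S}, (S.filter fun w => G.Adj v.1 w).card =
        ∑ v ∈ S, (S.filter fun w => G.Adj v w).card := by
      rw [← Finset.sum_coe_sort S]
    rw [h4, pr, ← Finset.card_sigma]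
    refine Finset.card_bij (fun z _ => ⟨z.1, z.2⟩) ?_ ?_ ?_
    · intro z hz
      rw [Finset.mem_filter, Finset.mem_filter, Finset.insert_subset_iff,
        Finset.singleton_subset_iff] at hz
      rw [Finset.mem_sigma, Finset.mem_filter]
      exact ⟨hz.2.1, hz.2.2, hz.1.2⟩
    · intro a _ b _ hab
      have h5 := congrArg Sigma.fst hab
      have h6 : a.2 = b.2 := by
        simpa using (Sigma.mk.inj_iff.1 hab).2
      exact Prod.ext h5 h6
    · rintro ⟨a, b⟩ hb
      rw [Finset.mem_sigma, Finset.mem_filter] at hb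
      refine ⟨(a, b), ?_, rfl⟩
      rw [Finset.mem_filter, Finset.mem_filter, Finset.insert_subset_iff,
        Finset.singleton_subset_iff]
      exact ⟨⟨Finset.mem_univ _, hb.2.2⟩, hb.1, hb.2.1⟩
  rw [h2]
  calc r * (2 * #(G.comap (Subtype.val : {x // x ∈ S} → V)).edgeFinset)
      = 2 * r * #(G.comap (Subtype.val : {x // x ∈ S} → V)).edgeFinset := by ring
    _ ≤ _ := h1

theorem pr_le {V : Type} [Fintype V] (G : SimpleGraph V) (S : Finset V) : pr G S ≤ S.card ^ 2 := by
  classical
  rw [pr, sq, ← Finset.card_product]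
  refine Finset.card_le_card ?_
  intro z hz
  rw [Finset.mem_filter, Finset.mem_filter, Finset.insert_subset_iff,
    Finset.singleton_subset_iff] at hz
  rw [Finset.mem_product]
  exact hz.2

theorem turan_few {V : Type} [Fintype V] (G : SimpleGraph V) {l : ℕ} (hl : 4 ≤ l) {M : ℕ}
    (hM : 5 ≤ M) {α : ℝ} (hα : 0 ≤ α) (hαM : ((l : ℝ) - 2) / (l - 1) * M ≤ α * (M - 1)) :
    ∀ s : ℕ, M ≤ s → ∀ S : Finset V, S.card = s →
      (pr G S : ℝ) ≤ α * (s * (s - 1)) + (M : ℝ) ^ 4 * ck G l S / ((s - 2) * (s - 3)) := by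
  classical
  have hl' : (4 : ℝ) ≤ l := by exact_mod_cast hl
  have hM' : (5 : ℝ) ≤ M := by exact_mod_cast hM
  intro s hs
  induction s, hs using Nat.le_induction with
  | base =>
    intro S hS
    by_cases h0 : ck G l S = 0
    · obtain ⟨r, rfl⟩ : ∃ r, l = r + 1 := ⟨l - 1, by omega⟩
      have h1 := pr_turan G (r := r) (by omega) S h0
      have h2 : (r : ℝ) * pr G S ≤ (r - 1) * (M : ℝ) ^ 2 := by
        have : ((r * pr G S : ℕ) : ℝ) ≤ (((r - 1) * S.card ^ 2 : ℕ) : ℝ) := by exact_mod_cast h1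
        rw [hS] at this
        push_cast [Nat.cast_sub (show 1 ≤ r by omega)] at this
        exact this
      rw [h0]
      push_cast at hαM hl' ⊢
      rw [mul_zero, zero_div, add_zero]
      have hr : (0 : ℝ) < r := by linarith
      have h3 : ((r : ℝ) + 1 - 2) / (r + 1 - 1) = (r - 1) / r := by
        congr 1 <;> ring
      rw [h3] at hαM
      have h4 : (pr G S : ℝ) ≤ (r - 1) / r * M * M := by
        rw [div_mul_eq_mul_div, div_mul_eq_mul_div, le_div_iff₀ hr]
        nlinarith
      nlinarith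
    · have h1 : (1 : ℝ) ≤ ck G l S := by exact_mod_cast Nat.one_le_iff_ne_zero.2 h0
      have h2 : (pr G S : ℝ) ≤ (M : ℝ) ^ 2 := by
        rw [← hS]
        exact_mod_cast pr_le G S
      have h3 : (0 : ℝ) < ((M : ℝ) - 2) * (M - 3) := mul_pos (by linarith) (by linarith)
      have h4 : (M : ℝ) ^ 2 ≤ (M : ℝ) ^ 4 * ck G l S / (((M : ℝ) - 2) * (M - 3)) := by
        rw [le_div_iff₀ h3]
        have h5 : ((M : ℝ) - 2) * (M - 3) ≤ (M : ℝ) ^ 2 := by nlinarith
        have h6 : (0 : ℝ) ≤ (M : ℝ) ^ 2 := sq_nonneg _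
        calc (M : ℝ) ^ 2 * (((M : ℝ) - 2) * (M - 3)) ≤ (M : ℝ) ^ 2 * (M : ℝ) ^ 2 :=
              mul_le_mul_of_nonneg_left h5 h6
          _ = (M : ℝ) ^ 4 * 1 := by ring
          _ ≤ (M : ℝ) ^ 4 * ck G l S := mul_le_mul_of_nonneg_left h1 (by positivity)
      have h5 : 0 ≤ α * ((M : ℝ) * (M - 1)) := mul_nonneg hα (mul_nonneg (by linarith) (by linarith))
      linarith
  | succ s hs ih =>
    intro S hS
    have hs' : (5 : ℝ) ≤ s := by exact_mod_cast hM.trans hs
    have h1 := avg ((Finset.univ : Finset (V × V)).filter fun z => G.Adj z.1 z.2)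
      (fun z => ({z.1, z.2} : Finset V)) 2 (by
        intro z hz
        rw [Finset.mem_filter] at hz
        exact Finset.card_pair hz.2.ne) S
    have h2 := avg (G.cliqueFinset l) (fun K => K) l (by
        intro K hK
        rw [SimpleGraph.mem_cliqueFinset_iff] at hK
        exact hK.card_eq) S
    have h3 : ∀ v ∈ S, (pr G (S.erase v) : ℝ) ≤ α * (s * (s - 1)) +
        (M : ℝ) ^ 4 * ck G l (S.erase v) / ((s - 2) * (s - 3)) := by
      intro v hv
      exact ih (S.erase v) (by rw [Finset.card_erase_of_mem hv, hS]; rfl)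
    have h4 := Finset.sum_le_sum h3
    rw [Finset.sum_add_distrib, Finset.sum_const, hS, nsmul_eq_mul, ← Finset.sum_div,
      ← Finset.mul_sum] at h4
    unfold pr ck at h4
    rw [h1, h2] at h4
    change (((S.card : ℕ) : ℝ) - ((2 : ℕ) : ℝ)) * (pr G S : ℝ) ≤ _ + _ * ((((S.card : ℕ) : ℝ) - l) *
      (ck G l S : ℝ)) / _ at h4
    rw [hS] at h4
    push_cast at h4 ⊢
    have hc : (0 : ℝ) ≤ ck G l S := Nat.cast_nonneg _
    have h5 : (0 : ℝ) < (s : ℝ) - 2 := by linarith
    have h6 : (0 : ℝ) < (s : ℝ) - 3 := by linarith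
    have h7 : (M : ℝ) ^ 4 * (((s : ℝ) + 1 - l) * ck G l S) / (((s : ℝ) - 2) * (s - 3)) ≤
        (M : ℝ) ^ 4 * ck G l S / (s - 2) := by
      rw [div_le_div_iff₀ (mul_pos h5 h6) h5]
      have h8 : ((s : ℝ) + 1 - l) ≤ s - 3 := by linarith
      have h9 : (0 : ℝ) ≤ (M : ℝ) ^ 4 * ck G l S * (s - 2) := by positivity
      nlinarith
    have h8 : ((s : ℝ) + 1 - 2) * pr G S ≤ (s + 1) * (α * (s * (s - 1))) +
        (M : ℝ) ^ 4 * ck G l S / (s - 2) := by linarith
    have h9 : (0 : ℝ) < (s : ℝ) - 1 := by linarith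
    have h10 : (pr G S : ℝ) ≤ ((s + 1) * (α * (s * (s - 1))) +
        (M : ℝ) ^ 4 * ck G l S / (s - 2)) / (s - 1) := by
      rw [le_div_iff₀ h9]
      linarith
    refine h10.trans (le_of_eq ?_)
    have e1 : (s : ℝ) + 1 - 2 = s - 1 := by ring
    have e2 : (s : ℝ) + 1 - 3 = s - 2 := by ring
    have e3 : (s : ℝ) + 1 - 1 = s := by ring
    rw [e1, e2, e3, add_div, div_div, mul_comm ((s : ℝ) - 2) (s - 1)]
    congr 1
    rw [div_eq_iff h9.ne']
    ring

end Pool.Agent.X266.IDL
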